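import Pool.Agent.H62.TOP.Lbz

/-!
# The rows at any window

`rw_of : RZ n → RW n`: from the rows of the families with side information to the rows of some of
the coordinates of a class at any window, given any closed function.
-/

set_option autoImplicit false

namespace Pool.TOP

open Finset Real MvPolynomial
open Pool.Agent.H49.Ent Pool.Agent.H32.Dense Pool.STK Pool.KA Pool.KSAT Pool.K2S Pool.PB Pool.S6C
open Pool.GEN Pool.ONE

variable {m n J : ℕ} {κ : Type}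

/-- Coarser digits. -/
theorem fl_crs {r r' : ℕ} (hr : r ≤ r') {x y : ℝ} (h : ⌊(2 : ℝ) ^ r' * x⌋ = ⌊(2 : ℝ) ^ r' * y⌋) :
    ⌊(2 : ℝ) ^ r * x⌋ = ⌊(2 : ℝ) ^ r * y⌋ := by
  obtain ⟨l, hl⟩ : ∃ l, r' = r + l := ⟨r' - r, by omega⟩
  have e1 : ∀ x : ℝ, ⌊(2 : ℝ) ^ r * x⌋ = ⌊((2 : ℝ) ^ r' * x) / ((2 ^ l : ℕ) : ℝ)⌋ := by
    intro x
    congr 1
    rw [hl, pow_add]
    push_cast
    field_simp
  rw [e1, e1, Int.floor_div_natCast, Int.floor_div_natCast, h]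

/-- Close numbers have few rounded values. -/
theorem ch_one {Ω T : Type} [Fintype Ω] {q : Ω → ℝ} (hq : IsLaw q) (r : ℕ) (x : Ω → ℝ) (Z : Ω → T)
    (h : ∀ ω ω', 0 < q ω → 0 < q ω' → Z ω = Z ω' → |x ω - x ω'| ≤ 7 / 2 ^ r) :
    CH q (fun ω => ⌊(2 : ℝ) ^ r * x ω⌋) Z ≤ Real.log 17 := by
  have key := ENP.CH_fl hq r (fun ω (_ : Fin 1) => x ω) Z 7 (fun ω ω' h1 h2 h3 _ =>
    h ω ω' h1 h2 h3)
  have e : (2 : ℝ) * 7 + 3 = 17 := by norm_num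
  rw [e, Nat.cast_one, one_mul] at key
  refine (CH_mono_left hq.nonneg ?_).trans key
  intro ω ω' _ _ hh
  exact congrFun (Prod.ext_iff.1 hh).1 0

/-- **The rows of a zoom**, pure form. -/
theorem row_gen {Ω : Type} [Fintype Ω] {q : Ω → ℝ} (hq : IsLaw q) {w J' : ℕ} (h : w + J' = J)
    (x : Ω → Fin m → ℝ) (xz : Ω → Fin n → ℝ) (e : Fin n → Fin m) {S T V U : Type} (Wz : Ω → S)
    (W : Ω → T) (y : Ω → V) (u : Ω → U)
    (hW : ∀ ω ω', 0 < q ω → 0 < q ω' → Wz ω = Wz ω' → y ω = y ω' ∧ W ω = W ω' ∧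
      ∀ i, |(xz ω i - xz ω' i) - 2 ^ w * (x ω (e i) - x ω' (e i))| ≤ 6 / 2 ^ J')
    (k : Fin n) (I' : Finset (Fin n)) {Q Q' : ℕ} (hQ' : Q' ≤ J') (hQ : Q ≤ w + Q') :
    CH q (fun ω => ⌊(2 : ℝ) ^ J' * xz ω k⌋) (fun ω => (⌊(2 : ℝ) ^ Q' * xz ω k⌋,
      (ub I' (fun i => ⌊(2 : ℝ) ^ J' * xz ω i⌋), (u ω, Wz ω)))) ≤
      CH q (fun ω => ⌊(2 : ℝ) ^ J * x ω (e k)⌋) (fun ω => (⌊(2 : ℝ) ^ Q * x ω (e k)⌋,
        (ub (I'.image e) (fun i => ⌊(2 : ℝ) ^ J * x ω i⌋), (y ω, W ω)))) +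
      (m + 2) * Real.log 17 := by
  classical
  have h0 := hq.nonneg
  have pw : (0 : ℝ) < 2 ^ w := by positivity
  have pJ : (0 : ℝ) < 2 ^ J' := by positivity
  have pQ : (0 : ℝ) < 2 ^ Q' := by positivity
  have eJ : (2 : ℝ) ^ J = 2 ^ w * 2 ^ J' := by rw [← h, pow_add]
  have eQ : (2 : ℝ) ^ (w + Q') = 2 ^ w * 2 ^ Q' := pow_add _ _ _
  have hQJ : (1 : ℝ) / 2 ^ J' ≤ 1 / 2 ^ Q' := inv_mono hQ'
  obtain ⟨C, hC⟩ : ∃ C : Ω → ℤ × ((Fin n → ℤ) × (U × S)), C = fun ω =>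
      (⌊(2 : ℝ) ^ Q' * xz ω k⌋, (ub I' (fun i => ⌊(2 : ℝ) ^ J' * xz ω i⌋), (u ω, Wz ω))) :=
    ⟨_, rfl⟩
  have hCd : ∀ ω ω', C ω = C ω' → ⌊(2 : ℝ) ^ Q' * xz ω k⌋ = ⌊(2 : ℝ) ^ Q' * xz ω' k⌋ ∧
      (∀ i ∈ I', ⌊(2 : ℝ) ^ J' * xz ω i⌋ = ⌊(2 : ℝ) ^ J' * xz ω' i⌋) ∧ Wz ω = Wz ω' := by
    intro ω ω' hh
    rw [hC] at hh
    have a1 := Prod.ext_iff.1 hh
    have a2 := Prod.ext_iff.1 a1.2
    have a3 := Prod.ext_iff.1 a2.2
    refine ⟨a1.1, fun i hi => ?_, a3.2⟩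
    have a4 := congrFun a2.1 i
    simp only at a4
    unfold ub at a4
    rw [if_pos hi, if_pos hi] at a4
    exact a4
  rw [← hC]
  -- the distances
  have dst : ∀ ω ω' : Ω, 0 < q ω → 0 < q ω' → Wz ω = Wz ω' → ∀ (i : Fin n) (r : ℕ), r ≤ J' →
      ⌊(2 : ℝ) ^ r * xz ω i⌋ = ⌊(2 : ℝ) ^ r * xz ω' i⌋ →
      |x ω (e i) - x ω' (e i)| ≤ 7 / 2 ^ (w + r) := by
    intro ω ω' h1 h2 h3 i r hr h4
    obtain ⟨-, -, h5⟩ := hW ω ω' h1 h2 h3
    have h6 := h5 i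
    have pr : (0 : ℝ) < 2 ^ r := by positivity
    have h7 : |xz ω i - xz ω' i| ≤ 1 / 2 ^ r := by
      have d1 := Plk.abs_sub_lt_of_floor h4
      rw [← mul_sub, abs_mul, abs_of_pos pr] at d1
      rw [le_div_iff₀ pr]
      linarith
    have h8 : (6 : ℝ) / 2 ^ J' ≤ 6 / 2 ^ r := by
      have := inv_mono hr
      have e1 : (6 : ℝ) / 2 ^ J' = 6 * (1 / 2 ^ J') := by ring
      have e2 : (6 : ℝ) / 2 ^ r = 6 * (1 / 2 ^ r) := by ring
      rw [e1, e2]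
      linarith
    have h9 : |2 ^ w * (x ω (e i) - x ω' (e i))| ≤ 7 / 2 ^ r := by
      have e1 : (7 : ℝ) / 2 ^ r = 1 / 2 ^ r + 6 / 2 ^ r := by ring
      rw [e1]
      rw [abs_le] at h6 h7 ⊢
      constructor <;> linarith [h6.1, h6.2, h7.1, h7.2]
    rw [abs_mul, abs_of_pos pw] at h9
    rw [pow_add, le_div_iff₀ (by positivity)]
    rw [le_div_iff₀ pr] at h9
    linarith
  have a1 := CH_le_add h0 (fun ω => ⌊(2 : ℝ) ^ J' * xz ω k⌋) (fun ω => ⌊(2 : ℝ) ^ J * x ω (e k)⌋) C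
  have a2 : CH q (fun ω => ⌊(2 : ℝ) ^ J' * xz ω k⌋)
      (fun ω => (⌊(2 : ℝ) ^ J * x ω (e k)⌋, C ω)) ≤ Real.log 17 := by
    refine ch_one hq J' (fun ω => xz ω k) _ (fun ω ω' h1 h2 hh => ?_)
    have b1 := Prod.ext_iff.1 hh
    obtain ⟨-, -, b2⟩ := hCd ω ω' b1.2
    obtain ⟨-, -, b3⟩ := hW ω ω' h1 h2 b2
    have b4 := b3 k
    have b5 : |2 ^ w * (x ω (e k) - x ω' (e k))| ≤ 1 / 2 ^ J' := by
      have d1 := Plk.abs_sub_lt_of_floor (b1.1 :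
        ⌊(2 : ℝ) ^ J * x ω (e k)⌋ = ⌊(2 : ℝ) ^ J * x ω' (e k)⌋)
      rw [le_div_iff₀ pJ]
      have e1 : (2 : ℝ) ^ J * x ω (e k) - 2 ^ J * x ω' (e k) =
          2 ^ w * (x ω (e k) - x ω' (e k)) * 2 ^ J' := by
        rw [eJ]
        ring
      rw [e1, abs_mul, abs_of_pos pJ] at d1
      exact d1
    have e1 : (7 : ℝ) / 2 ^ J' = 1 / 2 ^ J' + 6 / 2 ^ J' := by ring
    rw [e1]
    rw [abs_le] at b4 b5 ⊢
    constructor <;> linarith [b4.1, b4.2, b5.1, b5.2]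
  have a3 := CH_le_add h0 (fun ω => ⌊(2 : ℝ) ^ J * x ω (e k)⌋)
    (fun ω => ⌊(2 : ℝ) ^ (w + Q') * x ω (e k)⌋) C
  have a4 : CH q (fun ω => ⌊(2 : ℝ) ^ (w + Q') * x ω (e k)⌋) C ≤ Real.log 17 := by
    refine ch_one hq (w + Q') (fun ω => x ω (e k)) _ (fun ω ω' h1 h2 hh => ?_)
    obtain ⟨b1, -, b2⟩ := hCd ω ω' hh
    exact dst ω ω' h1 h2 b2 k Q' hQ' b1
  have a5 := CH_le_add h0 (fun ω => ⌊(2 : ℝ) ^ J * x ω (e k)⌋)
    (fun ω => ub (I'.image e) (fun i => ⌊(2 : ℝ) ^ J * x ω i⌋))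
    (fun ω => (⌊(2 : ℝ) ^ (w + Q') * x ω (e k)⌋, C ω))
  have a6 : CH q (fun ω => ub (I'.image e) (fun i => ⌊(2 : ℝ) ^ J * x ω i⌋))
      (fun ω => (⌊(2 : ℝ) ^ (w + Q') * x ω (e k)⌋, C ω)) ≤ m * Real.log 17 := by
    have key := ENP.CH_fl hq J (fun ω i => if i ∈ I'.image e then x ω i else 0)
      (fun ω => (⌊(2 : ℝ) ^ (w + Q') * x ω (e k)⌋, C ω)) 7 (by
        intro ω ω' h1 h2 hh i
        have b1 := Prod.ext_iff.1 hh
        obtain ⟨-, b2, b3⟩ := hCd ω ω' b1.2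
        split_ifs with hi
        · obtain ⟨j, hj, rfl⟩ := Finset.mem_image.1 hi
          have := dst ω ω' h1 h2 b3 j J' le_rfl (b2 j hj)
          rw [h] at this
          exact this
        · rw [sub_self, abs_zero]
          positivity)
    have e2 : (2 : ℝ) * 7 + 3 = 17 := by norm_num
    rw [e2] at key
    refine (CH_mono_left h0 ?_).trans key
    intro ω ω' _ _ hh
    funext i
    have b1 := congrFun (Prod.ext_iff.1 hh).1 i
    unfold ub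
    beta_reduce
    by_cases hi : i ∈ I'.image e
    · rw [if_pos hi, if_pos hi]
      have b2 : ⌊(2 : ℝ) ^ J * (if i ∈ I'.image e then x ω i else 0)⌋ =
          ⌊(2 : ℝ) ^ J * (if i ∈ I'.image e then x ω' i else 0)⌋ := b1
      rw [if_pos hi, if_pos hi] at b2
      exact b2
    · rw [if_neg hi, if_neg hi]
  have a7 : CH q (fun ω => ⌊(2 : ℝ) ^ J * x ω (e k)⌋)
      (fun ω => (ub (I'.image e) (fun i => ⌊(2 : ℝ) ^ J * x ω i⌋),
        (⌊(2 : ℝ) ^ (w + Q') * x ω (e k)⌋, C ω))) ≤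
      CH q (fun ω => ⌊(2 : ℝ) ^ J * x ω (e k)⌋) (fun ω => (⌊(2 : ℝ) ^ Q * x ω (e k)⌋,
        (ub (I'.image e) (fun i => ⌊(2 : ℝ) ^ J * x ω i⌋), (y ω, W ω)))) := by
    refine CH_mono_cond h0 ?_
    intro ω ω' h1 h2 hh
    have b1 := Prod.ext_iff.1 hh
    have b2 := Prod.ext_iff.1 b1.2
    obtain ⟨-, -, b3⟩ := hCd ω ω' b2.2
    obtain ⟨b4, b5, -⟩ := hW ω ω' h1 h2 b3
    refine Prod.ext ?_ (Prod.ext b1.1 (Prod.ext b4 b5))
    exact fl_crs hQ b2.1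
  have e3 : ((m : ℝ) + 2) * Real.log 17 = m * Real.log 17 + Real.log 17 + Real.log 17 := by ring
  rw [e3]
  linarith

/-- **The rows of a full zoom** are at most the rows of the family. -/
theorem row_zf (F : Fam m J) {w J' : ℕ} (h : w + J' = J) (g : F.Ω → κ) (e : Fin n → Fin m)
    {q : F.Ω → ℝ} (hq : IsLaw q) {V : Type} (y : F.Ω → V)
    (hy : ∀ ω ω', 0 < q ω → 0 < q ω' → g ω = g ω' → y ω = y ω') (k : Fin n)
    (I' : Finset (Fin n)) {Q Q' : ℕ} (hQ' : Q' ≤ J') (hQ : Q ≤ w + Q') :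
    CH q (fun ω => (zf F w J' h.le g e).X J' ω k) (fun ω => ((zf F w J' h.le g e).X Q' ω k,
      (ub I' ((zf F w J' h.le g e).X J' ω), ((), (zf F w J' h.le g e).W ω)))) ≤
      CH q (fun ω => F.X J ω (e k)) (fun ω => (F.X Q ω (e k),
        (ub (I'.image e) (F.X J ω), (y ω, F.W ω)))) + (m + 2) * Real.log 17 := by
  have key := row_gen hq h F.x (zf F w J' h.le g e).x e (zf F w J' h.le g e).W F.W y
    (fun _ => ()) (by
      intro ω ω' h1 h2 hh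
      obtain ⟨hT, hl⟩ := zf_W_det F h g e hh
      obtain ⟨b6, b7, b3, b4, b5⟩ := lb_iff.1 hl
      refine ⟨hy ω ω' h1 h2 b7, Prod.ext hT b5, fun i => ?_⟩
      have c1 := zf_x F h.le g e ω i
      have c2 := zf_x F h.le g e ω' i
      have c3 : tb F w ω = tb F w ω' := by
        unfold tb Fam.t
        rw [hT, b6]
      rw [b3, b4, c3] at c1
      have e1 : (6 : ℝ) / 2 ^ J' = 3 / 2 ^ J' + 3 / 2 ^ J' := by ring
      rw [e1]
      rw [abs_le] at c1 c2 ⊢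
      constructor <;> linarith [c1.1, c1.2, c2.1, c2.2]) k I' hQ' hQ
  exact key

/-- **The rows of a class**, from the rows of the zooms. -/
theorem rw_core {S : PCl m} {C₀ : ℝ} (hC₀ : 0 ≤ C₀) (hbs : TmC S C₀) {w₁ : ℝ} (hw0 : 0 < w₁)
    (hw11 : w₁ < 1) {ε : Fin n → Fin m} {c ρ Q Q' : ℝ} (hρ : 0 < ρ) (hQ'0 : 0 ≤ Q')
    (hQ'1 : Q' ≤ 1) (hQ : Q < w₁ + Q' * (1 - w₁)) (k₀ : Fin n) (I' : Finset (Fin n))
    {Bad : ℕ → Stat n}
    (hF : ∀ ψ : ℕ → ℝ, (∀ i, 0 < ψ i) → ∃ η : ℝ, 0 < η ∧ ∃ M J₁ : ℕ, ∀ J ≥ J₁,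
      ∀ G : Fam n J, G.Tm (η * J) → Gd G →
      (∃ i ≤ M, ∃ B : G.Ω → Prop, Real.exp (-(3 * ψ i * J)) ≤ Pe G.p B ∧ Bad i J G B) ∨
      c * Real.log 2 * J ≤ rowH G (fun _ => True) k₀ I' ⌊Q' * J⌋₊ (fun _ => ()))
    (hbad : ∀ i, ZBas S w₁ ε (fun J G B => ¬ Bad i J G B)) :
    Bas S (fun J F A => ∀ (V : Type) (z : PtT F → V) (z' : LnT F → V),
      (∀ ω, A ω → z (ptr F J ω) = z' (slam F ⌊w₁ * J⌋₊ ω)) →
      (c * (1 - w₁) - ρ) * Real.log 2 * J ≤ rowH F A (ε k₀) (I'.image ε) ⌊Q * J⌋₊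
        (fun ω => z' (slam F ⌊w₁ * J⌋₊ ω))) := by
  classical
  have h01 : 0 < 1 - w₁ := by linarith
  have hl2 : 0 < Real.log 2 := Real.log_pos one_lt_two
  choose ψ hψ τ₁ hτ₁ J₁ hz using hbad
  obtain ⟨η, hη, M, J₂, hmain⟩ := hF ψ hψ
  obtain ⟨τm, hτm, hτm'⟩ := fmin45 M τ₁ hτ₁
  obtain ⟨τ, hτ⟩ : ∃ τ, τ = min τm (η * (1 - w₁) / (C₀ + 1)) := ⟨_, rfl⟩
  have hτ0 : 0 < τ := by
    rw [hτ]
    exact lt_min hτm (div_pos (mul_pos hη h01) (by linarith))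
  have t1 : τ ≤ τm := by rw [hτ]; exact min_le_left _ _
  have t3 : C₀ * τ ≤ η * (1 - w₁) := by
    have h1 : τ ≤ η * (1 - w₁) / (C₀ + 1) := by rw [hτ]; exact min_le_right _ _
    rw [le_div_iff₀ (by linarith)] at h1
    have e1 : τ * (C₀ + 1) = C₀ * τ + τ := by ring
    linarith
  obtain ⟨J₄, hJ₄⟩ := lin (J₂ : ℝ) h01
  obtain ⟨J₅, hJ₅⟩ := lin (((m : ℝ) + 2) * Real.log 17) (mul_pos hρ hl2)
  obtain ⟨J₆, hJ₆⟩ := lin (3 : ℝ) (sub_pos.2 hQ)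
  refine ⟨τ, hτ0, max (∑ i ∈ range (M + 1), J₁ i) (max J₄ (max J₅ J₆)), ?_⟩
  intro J hJ F A hS V z z' hcls
  simp only [ge_iff_le, max_le_iff] at hJ
  obtain ⟨hJ1, hJ4, hJ5, hJ6⟩ := hJ
  replace hJ4 := hJ₄ J hJ4
  replace hJ5 := hJ₅ J hJ5
  replace hJ6 := hJ₆ J hJ6
  have hJr : (0 : ℝ) ≤ J := Nat.cast_nonneg J
  obtain ⟨hA, hTmA⟩ := hbs _ J F A hτ0 hS
  have hl := isLaw_cond F.isLaw hA
  -- the scale
  have hWJ : ⌊w₁ * (J : ℝ)⌋₊ ≤ J := by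
    refine Nat.floor_le_of_le ?_
    have := mul_le_mul_of_nonneg_right hw11.le hJr
    linarith
  obtain ⟨J', hJ'⟩ : ∃ J', ⌊w₁ * (J : ℝ)⌋₊ + J' = J := ⟨J - ⌊w₁ * (J : ℝ)⌋₊, by omega⟩
  have hWr : (⌊w₁ * (J : ℝ)⌋₊ : ℝ) ≤ w₁ * J := Nat.floor_le (by positivity)
  have hWr' : w₁ * (J : ℝ) < ⌊w₁ * (J : ℝ)⌋₊ + 1 := Nat.lt_floor_add_one _
  have hsum : (⌊w₁ * (J : ℝ)⌋₊ : ℝ) + J' = J := by exact_mod_cast hJ'
  have hJ'0 : (0 : ℝ) ≤ J' := Nat.cast_nonneg J'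
  have hJ'1 : (1 - w₁) * J ≤ (J' : ℝ) := by
    have : (1 - w₁) * (J : ℝ) = J - w₁ * J := by ring
    linarith
  have hJ'2 : J₂ ≤ J' := by
    have : (J₂ : ℝ) ≤ J' := by linarith
    exact_mod_cast this
  have hQJ' : ⌊Q' * (J' : ℝ)⌋₊ ≤ J' := by
    refine Nat.floor_le_of_le ?_
    have := mul_le_mul_of_nonneg_right hQ'1 hJ'0
    linarith
  have hQQ : ⌊Q * (J : ℝ)⌋₊ ≤ ⌊w₁ * (J : ℝ)⌋₊ + ⌊Q' * (J' : ℝ)⌋₊ := by
    have f4 : Q' * (J' : ℝ) < ⌊Q' * (J' : ℝ)⌋₊ + 1 := Nat.lt_floor_add_one _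
    have g4 : Q' * (1 - w₁) * J ≤ Q' * (J' : ℝ) := by
      have := mul_le_mul_of_nonneg_left hJ'1 hQ'0
      have e2 : Q' * ((1 - w₁) * (J : ℝ)) = Q' * (1 - w₁) * J := by ring
      linarith
    refine Nat.floor_le_of_le ?_
    push_cast
    have e2 : (w₁ + Q' * (1 - w₁) - Q) * (J : ℝ) = w₁ * J + Q' * (1 - w₁) * J - Q * J := by ring
    linarith
  have hTm : (zf (F.res A True hl) ⌊w₁ * (J : ℝ)⌋₊ J' hJ'.le
      (fun ω => z' (slam F ⌊w₁ * (J : ℝ)⌋₊ ω)) ε).Tm (η * J') := by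
    have h1 := zf_Tm (F.res A True hl) hJ'.le (fun ω => z' (slam F ⌊w₁ * (J : ℝ)⌋₊ ω)) ε (by
      intro ω ω' _ _ hh
      have a1 := Prod.ext_iff.1 hh
      have a2 := Prod.ext_iff.1 a1.2
      simp only at a1 a2
      have a3 : slam F ⌊w₁ * (J : ℝ)⌋₊ ω = slam F ⌊w₁ * (J : ℝ)⌋₊ ω' :=
        Prod.ext a1.1 (Prod.ext a2.2 a2.1)
      simp only
      rw [a3]) (hTmA hl)
    unfold Fam.Tm at h1 ⊢
    refine le_trans ?_ h1
    have h2 : C₀ * τ * J ≤ η * J' := by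
      calc C₀ * τ * J ≤ η * (1 - w₁) * J := mul_le_mul_of_nonneg_right t3 hJr
        _ = η * ((1 - w₁) * J) := by ring
        _ ≤ η * J' := mul_le_mul_of_nonneg_left hJ'1 hη.le
    linarith
  rcases hmain J' hJ'2 _ hTm (zf_Gd _ hJ'.le _ ε) with ⟨i, hi, B, hB, hb⟩ | h1
  · exfalso
    have hJi : J₁ i ≤ J := (Finset.single_le_sum (f := J₁) (fun _ _ => Nat.zero_le _)
      (Finset.mem_range.2 (by omega))).trans hJ1
    exact hz i J hJi F A (S.mono (t1.trans (hτm' i hi)) hS) V z z' hcls hl J' hJ' B hB hb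
  · have h2 := row_zf (F.res A True hl) hJ' (fun ω => z' (slam F ⌊w₁ * (J : ℝ)⌋₊ ω)) ε
      (q := Pool.Agent.H49.Ent.cond F.p A True) hl
      (fun ω => z' (slam F ⌊w₁ * (J : ℝ)⌋₊ ω)) (fun ω ω' _ _ hh => hh) k₀ I' hQJ' hQQ
    have h3 : rowH (zf (F.res A True hl) ⌊w₁ * (J : ℝ)⌋₊ J' hJ'.le
        (fun ω => z' (slam F ⌊w₁ * (J : ℝ)⌋₊ ω)) ε) (fun _ => True) k₀ I' ⌊Q' * (J' : ℝ)⌋₊
        (fun _ => ()) ≤ rowH F A (ε k₀) (I'.image ε) ⌊Q * J⌋₊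
        (fun ω => z' (slam F ⌊w₁ * J⌋₊ ω)) + (m + 2) * Real.log 17 := by
      unfold rowH
      have e1 : Pool.Agent.H49.Ent.cond (zf (F.res A True hl) ⌊w₁ * (J : ℝ)⌋₊ J' hJ'.le
          (fun ω => z' (slam F ⌊w₁ * (J : ℝ)⌋₊ ω)) ε).p (fun _ => True) True =
          Pool.Agent.H49.Ent.cond F.p A True := cond_univ hl
      rw [e1]
      exact h2
    have h4 := h1.trans h3
    by_cases hc : 0 ≤ c
    · have h4 : c * (1 - w₁) * Real.log 2 * J ≤ c * Real.log 2 * J' := by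
        have h5 := mul_le_mul_of_nonneg_left hJ'1 (mul_nonneg hc hl2.le)
        have e1 : c * Real.log 2 * ((1 - w₁) * (J : ℝ)) = c * (1 - w₁) * Real.log 2 * J := by ring
        linarith
      have e2 : (c * (1 - w₁) - ρ) * Real.log 2 * (J : ℝ) =
          c * (1 - w₁) * Real.log 2 * J - ρ * Real.log 2 * J := by ring
      rw [e2]
      linarith
    · push Not at hc
      refine le_trans ?_ (CH_nonneg hl.nonneg _ _)
      refine mul_nonpos_of_nonpos_of_nonneg (mul_nonpos_of_nonpos_of_nonneg ?_ hl2.le) hJr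
      have := mul_nonneg (by linarith : 0 ≤ -c) h01.le
      linarith

/-- **The rows of a class at any window**, given any closed function. -/
theorem rw_of {n : ℕ} (hZ : RZ n) : RW n := by
  classical
  intro al g₀ hal hg₀ N hN m C₀ S hC₀ hbs I k κ hk hκ hcard hact R w Q d ρ hR hw0 hwQ hQ1 hd0 hwd
    hρ habs
  have hw1 : w < 1 := by linarith
  have h01 : 0 < 1 - w := by linarith
  have hl2 : 0 < Real.log 2 := Real.log_pos one_lt_two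
  have hpos : PosC S := fun τ J F A hτ hA => (hbs τ J F A hτ hA).1
  have hI : 0 < I.card := Finset.card_pos.2 ⟨κ, hκ⟩
  have hn : 2 ≤ n := by omega
  -- the trivial case
  obtain ⟨QZ, hQZ⟩ : ∃ QZ, QZ = (Q - w) / (1 - w) + ρ / 4 := ⟨_, rfl⟩
  have hQZe : QZ * (1 - w) = Q - w + ρ / 4 * (1 - w) := by
    rw [hQZ]
    field_simp
  have hQZ0 : 0 ≤ QZ := by
    rw [hQZ]
    have := div_nonneg (sub_nonneg.2 hwQ) h01.le
    linarith
  by_cases hQZ1 : QZ ≤ 1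
  swap
  · push Not at hQZ1
    refine ⟨1, one_pos, 0, fun J _ F A hA V z z' _ => ?_⟩
    refine le_trans ?_ (CH_nonneg (isLaw_cond F.isLaw (hpos 1 J F A one_pos hA)).nonneg _ _)
    refine mul_nonpos_of_nonpos_of_nonneg (mul_nonpos_of_nonpos_of_nonneg ?_ hl2.le)
      (Nat.cast_nonneg J)
    have h1 : 1 * (1 - w) < QZ * (1 - w) := mul_lt_mul_of_pos_right hQZ1 h01
    have h2 : ρ / 4 * (1 - w) ≤ ρ / 4 := by nlinarith
    linarith
  -- the coordinates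
  obtain ⟨z0, hz0⟩ : ∃ z0 : Fin n, (z0 : ℕ) = 0 := ⟨⟨0, by omega⟩, rfl⟩
  obtain ⟨ε, hinj, hε0, hεl, himg⟩ : ∃ ε : Fin n → Fin m, Function.Injective ε ∧ ε z0 = κ ∧
      ε (lst hn) = k ∧ (univ.erase (lst hn)).image ε = I := by
    have hc : Fintype.card (Fin n) = Fintype.card ↥(insert k I) := by
      rw [Fintype.card_fin, Fintype.card_coe, Finset.card_insert_of_notMem hk, hcard]
    obtain ⟨e0⟩ := Fintype.card_eq.1 hc
    have hκm : κ ∈ insert k I := Finset.mem_insert_of_mem hκ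
    have hkm : k ∈ insert k I := Finset.mem_insert_self _ _
    have hkκ : (⟨k, hkm⟩ : ↥(insert k I)) ≠ ⟨κ, hκm⟩ := by
      intro hh
      have : k = κ := congrArg Subtype.val hh
      exact hk (this ▸ hκ)
    obtain ⟨e1, he1⟩ : ∃ e1 : Fin n ≃ ↥(insert k I), e1 z0 = ⟨κ, hκm⟩ :=
      ⟨(Equiv.swap z0 (e0.symm ⟨κ, hκm⟩)).trans e0, by
        rw [Equiv.trans_apply, Equiv.swap_apply_left, Equiv.apply_symm_apply]⟩
    have hl0 : lst hn ≠ z0 := by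
      intro hh
      have h1 : ((lst hn : Fin n) : ℕ) = z0 := by rw [hh]
      rw [hz0] at h1
      change n - 1 = 0 at h1
      omega
    obtain ⟨e2, he2, he3⟩ : ∃ e2 : Fin n ≃ ↥(insert k I), e2 (lst hn) = ⟨k, hkm⟩ ∧
        e2 z0 = ⟨κ, hκm⟩ := by
      refine ⟨(Equiv.swap (lst hn) (e1.symm ⟨k, hkm⟩)).trans e1, ?_, ?_⟩
      · rw [Equiv.trans_apply, Equiv.swap_apply_left, Equiv.apply_symm_apply]
      · rw [Equiv.trans_apply, Equiv.swap_apply_of_ne_of_ne (Ne.symm hl0) (by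
          intro hh
          apply hkκ
          rw [← he1, hh, Equiv.apply_symm_apply]), he1]
    refine ⟨fun i => (e2 i : Fin m), fun a b hab => e2.injective (Subtype.ext hab), ?_, ?_, ?_⟩
    · simp only
      rw [he3]
    · simp only
      rw [he2]
    · ext x
      rw [Finset.mem_image]
      constructor
      · rintro ⟨i, hi, rfl⟩
        have h1 := (e2 i).2
        rcases Finset.mem_insert.1 h1 with h2 | h2
        · exfalso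
          have h3 : e2 i = e2 (lst hn) := by
            rw [he2]
            exact Subtype.ext h2
          exact (Finset.mem_erase.1 hi).1 (e2.injective h3)
        · exact h2
      · intro hx
        have hx' : x ∈ insert k I := Finset.mem_insert_of_mem hx
        refine ⟨e2.symm ⟨x, hx'⟩, ?_, ?_⟩
        · refine Finset.mem_erase.2 ⟨fun hh => ?_, Finset.mem_univ _⟩
          have h1 : (⟨x, hx'⟩ : ↥(insert k I)) = ⟨k, hkm⟩ := by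
            rw [← he2, ← hh, Equiv.apply_symm_apply]
          have h2 : x = k := congrArg Subtype.val h1
          exact hk (h2 ▸ hx)
        · rw [Equiv.apply_symm_apply]
  have hk0 : ∀ i : Fin n, (i : ℕ) = 0 → ε i = κ := by
    intro i hi
    rw [← hε0]
    congr 1
    exact Fin.ext (hi.trans hz0.symm)
  -- the rows of the zooms
  have hmain := hZ hn al (fun ε => min (g₀ (ε / 2)) 1) hal
    (fun ε hε => lt_min (hg₀ _ (half_pos hε)) one_pos) (NZR S κ (al + 1) w)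
    (ActM.real hpos hal.le hN hact hw0.le hw1) (2 * R + 3) QZ d (ρ / 4) (by linarith) hQZ0 hQZ1
    hd0 (by linarith)
  have hcore := rw_core (ε := ε) hC₀ hbs hw0 hw1 (c := 1 - QZ - ρ / 4) (ρ := ρ / 4) (Q := Q)
    (Q' := QZ) (by linarith) hQZ0 hQZ1 (by
      rw [hQZe]
      have : 0 < ρ / 4 * (1 - w) := by positivity
      linarith) (lst hn) (univ.erase (lst hn))
    (Bad := RBad hn (NZR S κ (al + 1) w) (2 * R + 3) QZ d) hmain (by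
      intro i
      have h1 := zbas_actR hbs hw0 hw1 hk0 (by linarith : 0 ≤ al + 1)
        (show (0 : ℝ) < 1 / ((i : ℝ) + 1) by positivity) i
      have h2 := zlbr (Q := Q) (Q' := QZ) (w₁ := w) (w₂ := w + d) (w' := d) hpos hR hw0 hw1 hd0.le
        (by linarith) (by nlinarith) hwd.le hQZ0 hQZ1 (by
          rw [hQZe]
          have : 0 < ρ / 4 * (1 - w) := by positivity
          linarith) ε (univ.erase (lst hn)) (lst hn) i (by
          rw [himg, hεl]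
          exact habs (i + 1))
      refine (h1.and h2).mono fun J G B h3 hbad => ?_
      rcases hbad with ⟨q, q', k', a1, a2, a3, a4, a5, a6⟩ | a1
      · exact h3.1 q q' k' a1 a2 a3 a4 a5 a6
      · exact h3.2 a1)
  rw [himg, hεl] at hcore
  refine Bas.mono 0 hcore fun J _ F A h V z z' hcls => ?_
  refine le_trans ?_ (h V z z' hcls)
  refine mul_le_mul_of_nonneg_right (mul_le_mul_of_nonneg_right ?_ hl2.le) (Nat.cast_nonneg J)
  have e1 : (1 - QZ - ρ / 4) * (1 - w) = 1 - w - QZ * (1 - w) - ρ / 4 * (1 - w) := by ring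
  rw [e1, hQZe]
  have h2 : ρ / 4 * (1 - w) ≤ ρ / 4 := by nlinarith
  linarith

end Pool.TOP
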