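import Pool.Agent.H27.TOP.Stm
import Pool.Agent.H45.EXA.ExaR

/-!
# Stable labels of the zooms

`lbr_zoom`: a label of one coordinate of the zoom which is stable under a perturbation of the point
by `2 R + 3` cells is a label of the family which is stable under `R` cells. `zlbr`: no stable
labels in the zooms of the families of a class.
-/

set_option autoImplicit false

namespace Pool.TOP

open Finset Real MvPolynomial
open Pool.Agent.H49.Ent Pool.Agent.H32.Dense Pool.STK Pool.KA Pool.KSAT Pool.K2S Pool.PB Pool.S6C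
open Pool.GEN Pool.ONE

variable {m n J : ℕ} {κ : Type}

/-- The position: the value of the substituted label near the point. -/
theorem lbr_pos {F : Fam m J} {w J' P₁ : ℕ} (hJ : w + J' = J) (hP : P₁ ≤ J') {R : ℝ} (hR : 0 ≤ R)
    {ω : F.Ω} {e : Fin n → Fin m} {i : Fin n}
    {G : MvPolynomial (Option (Fin n)) ℝ} {zb : Option (Fin n) → ℝ}
    (hx : ∀ k, |zb (some k) - (2 ^ w * F.x ω (e k) - cl F w ω (e k) - tb F w ω * vl F ω (e k))| ≤
      3 / 2 ^ J')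
    (ht : |zb none - tb F w ω| ≤ 1 / 2 ^ J')
    (hG : ∀ b' : Option (Fin n) → ℝ, (∀ o, |b' o - zb o| ≤ (2 * R + 3) / 2 ^ J') →
      |zb (some i) - eval b' G| ≤ 1 / 2 ^ P₁)
    {b : Option (Fin m) → ℝ} (hb : ∀ o, |b o - bt F ω o| ≤ R / 2 ^ J) :
    |F.x ω (e i) - eval b (qs w (F.T1 w ω) (fun i => cl F w ω i) (fun i => vl F ω i) e
      (fun _ => G) i)| ≤ (R + 4) / 2 ^ (w + P₁) := by
  classical
  have pw : (0 : ℝ) < 2 ^ w := by positivity
  have pP : (0 : ℝ) < 2 ^ P₁ := by positivity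
  have pJ : (0 : ℝ) < 2 ^ J' := by positivity
  have hv : ∀ i, |(vl F ω i : ℝ)| ≤ 1 := by
    intro i
    have h1 := vl_near F ω i
    have h2 : (-1 : ℝ) ≤ vl F ω i := by exact_mod_cast h1.1
    have h3 : (vl F ω i : ℝ) ≤ 1 := by exact_mod_cast h1.2
    exact abs_le.2 ⟨h2, h3⟩
  have hRJ : 2 ^ w * (R / 2 ^ J) = R / 2 ^ J' := by
    rw [← hJ, pow_add]
    field_simp
  have htb : 2 ^ w * bt F ω none - (F.T1 w ω : ℝ) = tb F w ω := rfl
  -- the time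
  have hn : |2 ^ w * b none - (F.T1 w ω : ℝ) - tb F w ω| ≤ R / 2 ^ J' := by
    have e1 : 2 ^ w * b none - (F.T1 w ω : ℝ) - tb F w ω = 2 ^ w * (b none - bt F ω none) := by
      rw [← htb]
      ring
    rw [e1, abs_mul, abs_of_pos pw, ← hRJ]
    exact mul_le_mul_of_nonneg_left (hb none) pw.le
  have hvn : ∀ k, |(vl F ω k : ℝ) * (2 ^ w * b none - (F.T1 w ω : ℝ) - tb F w ω)| ≤
      R / 2 ^ J' := by
    intro k
    rw [abs_mul]
    calc _ ≤ 1 * (R / 2 ^ J') := mul_le_mul (hv k) hn (abs_nonneg _) zero_le_one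
      _ = _ := one_mul _
  -- the new point
  have hS : ∀ o, |eval b (sb w (F.T1 w ω : ℝ) (fun i => (cl F w ω i : ℝ))
      (fun i => (vl F ω i : ℝ)) e o) - zb o| ≤ (2 * R + 3) / 2 ^ J' := by
    intro o
    rcases o with _ | k
    · rw [eval_sb_none]
      have e1 : 2 ^ w * b none - (F.T1 w ω : ℝ) - zb none =
          (2 ^ w * b none - (F.T1 w ω : ℝ) - tb F w ω) - (zb none - tb F w ω) := by ring
      rw [e1]
      refine (abs_sub _ _).trans ((add_le_add hn ht).trans ?_)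
      rw [← add_div]
      exact div_le_div_of_nonneg_right (by linarith) pJ.le
    · rw [eval_sb_some]
      have e2 : bt F ω (some (e k)) = F.x ω (e k) := rfl
      have h1 : |2 ^ w * (b (some (e k)) - F.x ω (e k))| ≤ R / 2 ^ J' := by
        rw [abs_mul, abs_of_pos pw, ← hRJ]
        have := hb (some (e k))
        rw [e2] at this
        exact mul_le_mul_of_nonneg_left this pw.le
      have h3 := hx k
      have e1 : 2 ^ w * b (some (e k)) - (cl F w ω (e k) : ℝ) -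
          (vl F ω (e k) : ℝ) * (2 ^ w * b none - (F.T1 w ω : ℝ)) - zb (some k) =
          2 ^ w * (b (some (e k)) - F.x ω (e k)) -
          (vl F ω (e k) : ℝ) * (2 ^ w * b none - (F.T1 w ω : ℝ) - tb F w ω) -
          (zb (some k) - (2 ^ w * F.x ω (e k) - cl F w ω (e k) -
            tb F w ω * vl F ω (e k))) := by ring
      have h2' := hvn (e k)
      rw [e1]
      refine (abs_sub _ _).trans ((add_le_add ((abs_sub _ _).trans (add_le_add h1 h2')) h3).trans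
        (le_of_eq ?_))
      ring
  have h1 := hG _ hS
  have h3 := hx i
  have h2 := hvn (e i)
  have e1 : F.x ω (e i) - eval b (qs w (F.T1 w ω) (fun i => cl F w ω i)
      (fun i => vl F ω i) e (fun _ => G) i) = 1 / 2 ^ w *
      ((zb (some i) - eval (fun o => eval b (sb w (F.T1 w ω : ℝ) (fun i => (cl F w ω i : ℝ))
        (fun i => (vl F ω i : ℝ)) e o)) G) -
        (zb (some i) - (2 ^ w * F.x ω (e i) - cl F w ω (e i) - tb F w ω * vl F ω (e i))) -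
        (vl F ω (e i) : ℝ) * (2 ^ w * b none - (F.T1 w ω : ℝ) - tb F w ω)) := by
    rw [eval_qs]
    field_simp
    ring
  rw [e1, abs_mul, abs_of_pos (by positivity : (0 : ℝ) < 1 / 2 ^ w)]
  have h5' : (1 : ℝ) / 2 ^ J' ≤ 1 / 2 ^ P₁ := inv_mono hP
  have h6 : (1 : ℝ) / 2 ^ P₁ + 3 / 2 ^ J' + R / 2 ^ J' ≤ (R + 4) * (1 / 2 ^ P₁) := by
    have e2 : (1 : ℝ) / 2 ^ P₁ + 3 / 2 ^ J' + R / 2 ^ J' =
        1 / 2 ^ P₁ + (R + 3) * (1 / 2 ^ J') := by ring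
    rw [e2]
    have := mul_le_mul_of_nonneg_left h5' (by linarith : 0 ≤ R + 3)
    linarith
  have h7 : |(zb (some i) - eval (fun o => eval b (sb w (F.T1 w ω : ℝ)
        (fun i => (cl F w ω i : ℝ)) (fun i => (vl F ω i : ℝ)) e o)) G) -
        (zb (some i) - (2 ^ w * F.x ω (e i) - cl F w ω (e i) - tb F w ω * vl F ω (e i))) -
        (vl F ω (e i) : ℝ) * (2 ^ w * b none - (F.T1 w ω : ℝ) - tb F w ω)| ≤
        1 / 2 ^ P₁ + 3 / 2 ^ J' + R / 2 ^ J' :=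
    (abs_sub _ _).trans (add_le_add ((abs_sub _ _).trans (add_le_add h1 h3)) h2)
  refine (mul_le_mul_of_nonneg_left (h7.trans h6) (by positivity)).trans (le_of_eq ?_)
  rw [pow_add]
  field_simp

/-- **A stable label of one coordinate of the zoom is a stable label of the family.** -/
theorem lbr_zoom (m n K : ℕ) {R : ℝ} (hR : 0 ≤ R) : ∃ (c : ℝ) (l : ℕ), 0 < c ∧ ∀ (J : ℕ)
    (F : Fam m J) (w J' : ℕ) (h : w + J' = J) (κ : Type) (g : F.Ω → κ) (B : F.Ω → Prop),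
    (∀ ω ω', B ω → B ω' → ptr F J ω = ptr F J ω' → g ω = g ω') →
    (∀ ω ω', B ω → B ω' → slam F w ω = slam F w ω' → g ω = g ω') →
    ∀ (e : Fin n → Fin m) (I' : Finset (Fin n)) (i : Fin n) (w₁ P₁ : ℕ), w₁ ≤ J' → P₁ ≤ J' →
    LbR (2 * R + 3) (zf F w J' h.le g e) I' i K w₁ P₁ B → l ≤ w + P₁ →
    ∃ B' : F.Ω → Prop, Sub B' B ∧ c * Pe F.p B ≤ Pe F.p B' ∧
      LbR R F (I'.image e) (e i) (K + 1) (w + w₁) (w + P₁ - l) B' := by
  classical
  obtain ⟨l, hl⟩ := pow_unbounded_of_one_lt (R + 4) (one_lt_two : (1 : ℝ) < 2)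
  obtain ⟨D, hD⟩ : ∃ D : ℝ, D = 5 ^ m * (5 ^ m * 17 ^ n) := ⟨_, rfl⟩
  have hDpos : 0 < D := by rw [hD]; positivity
  refine ⟨1 / D, l, by positivity, ?_⟩
  intro J F w J' h κ g B hgp hgl e I' i w₁ P₁ hw₁ hP hL hlP
  obtain ⟨V, z, z', G, hlab⟩ := hL
  obtain ⟨B₂, hB2, hP2, hdet⟩ := pt_zoom F h.le h.le g e B (fun ω ω' h1 h2 hpt =>
    hgp ω ω' h1 h2 hpt)
  rw [← hD] at hP2
  -- the value of the new label
  obtain ⟨w₂, hw₂⟩ : ∃ w₂, w₂ = w + w₁ := ⟨_, rfl⟩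
  obtain ⟨Y, hY⟩ : ∃ Y : F.Ω → V × (((ℕ × κ) × ((Fin m → ℤ) × (Fin m → ℤ))) × F.ζ),
      Y = fun ω => (z' (slam (zf F w J' h.le g e) w₁ ω), lb F w g ω) := ⟨_, rfl⟩
  obtain ⟨y, hy⟩ := fac (f := ptr F J) (Y := Y) (B := B₂) (by
    intro ω ω' h1 h2 hpt
    obtain ⟨a1, a2⟩ := hdet ω ω' h1 h2 hpt
    have a3 := hlab.cls ω (hB2 ω h1)
    have a4 := hlab.cls ω' (hB2 ω' h2)
    rw [hY]
    exact Prod.ext (a3.symm.trans ((congrArg z (a2 J' le_rfl)).trans a4)) a1)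
  obtain ⟨y', hy'⟩ := fac (f := slam F w₂) (Y := Y) (B := B₂) (by
    intro ω ω' h1 h2 hsl
    obtain ⟨a1, a2⟩ := Prod.ext_iff.1 hsl
    obtain ⟨a3, a4⟩ := Prod.ext_iff.1 a2
    have b1 : F.l ω = F.l ω' := a1
    have b2 : F.Z ω = F.Z ω' := a3
    have b3 : F.T1 w₂ ω = F.T1 w₂ ω' := a4
    rw [hw₂] at b3
    have b5 : F.T1 w ω = F.T1 w ω' := by
      rw [T1_div F (w := w) (K := w₁) (by omega) ω, T1_div F (w := w) (K := w₁) (by omega) ω', b3]
    have b6 : slam F w ω = slam F w ω' := Prod.ext b1 (Prod.ext b2 b5)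
    have b7 : g ω = g ω' := hgl ω ω' (hB2 ω h1) (hB2 ω' h2) b6
    obtain ⟨d1, d2, -⟩ := zf_det F h.le g e (v := w₁) (by omega) b1 b3 b7 b2
    rw [hY]
    exact Prod.ext (congrArg z' d1) d2)
  -- the new polynomials
  obtain ⟨G', hG'⟩ : ∃ G' : Option (V × (((ℕ × κ) × ((Fin m → ℤ) × (Fin m → ℤ))) × F.ζ)) →
      MvPolynomial (Option (Fin m)) ℝ, G' = fun o => match o with
      | none => 0
      | some v => qs w (v.2.1.1.1 : ℝ) (fun i => (v.2.1.2.1 i : ℝ))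
          (fun i => (v.2.1.2.2 i : ℝ)) e (fun _ => G v.1) i := ⟨_, rfl⟩
  have hG'Y : ∀ ω, G' (some (Y ω)) = qs w (F.T1 w ω : ℝ) (fun i => (cl F w ω i : ℝ))
      (fun i => (vl F ω i : ℝ)) e (fun _ => G (z' (slam (zf F w J' h.le g e) w₁ ω))) i := by
    intro ω
    rw [hG', hY]
    rfl
  refine ⟨B₂, hB2, ?_, _, y, y', G', ?_, ?_, ?_, ?_⟩
  · rw [div_mul_eq_mul_div, one_mul, div_le_iff₀ hDpos, mul_comm (Pe F.p B₂) D]
    exact hP2
  · intro v
    rw [hG']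
    rcases v with _ | v
    · simp only
      rw [totalDegree_zero]
      exact Nat.zero_le _
    · exact deg_qs (hlab.deg _)
  · intro v b b' h0 h1
    rw [hG']
    rcases v with _ | v
    · simp only [map_zero]
    · simp only
      rw [eval_qs, eval_qs, h0]
      congr 3
      refine hlab.dep _ _ _ ?_ fun i' hi' => ?_
      · rw [eval_sb_none, eval_sb_none, h0]
      · rw [eval_sb_some, eval_sb_some, h0, h1 (e i') (Finset.mem_image_of_mem e hi')]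
  · intro ω hω
    rw [hy ω hω, ← hw₂, hy' ω hω]
  · intro ω hω b hb
    rw [← hw₂, hy' ω hω, hG'Y]
    refine (lbr_pos h hP hR (zb := bt (zf F w J' h.le g e) ω)
      (fun i => zf_x F h.le g e ω i) (by
      have h1 := zf_t F h.le g e ω
      have e1 : bt (zf F w J' h.le g e) ω none = (zf F w J' h.le g e).t ω := rfl
      rw [e1, abs_le]
      have : (0 : ℝ) ≤ 1 / 2 ^ J' := by positivity
      constructor <;> linarith [h1.1, h1.2]) (fun b' hb' => hlab.pos ω (hB2 ω hω) b' hb')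
      hb).trans ?_
    have hpow : (2 : ℝ) ^ (w + P₁) = 2 ^ (w + P₁ - l) * 2 ^ l := by
      rw [← pow_add]
      congr 1
      omega
    rw [hpow, div_le_div_iff₀ (by positivity) (by positivity), one_mul, mul_comm]
    exact mul_le_mul_of_nonneg_left hl.le (by positivity)

/-- A stable label of a part of the sample space. -/
theorem lbr_part {R : ℝ} {F : Fam m J} {I : Finset (Fin m)} {k : Fin m} {K w P : ℕ}
    {A : F.Ω → Prop} (hl : IsLaw (Pool.Agent.H49.Ent.cond F.p A True)) {B : F.Ω → Prop}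
    (h : LbR R (F.res A True hl) I k K w P B) : LbR R F I k K w P (fun ω => A ω ∧ B ω) := by
  obtain ⟨V, z, z', g, hg⟩ := h
  exact ⟨V, z, z', g, hg.deg, hg.dep, fun ω hω => hg.cls ω hω.2, fun ω hω => hg.pos ω hω.2⟩

/-- The exponents. -/
theorem LbR.mono {R : ℝ} {F : Fam m J} {I : Finset (Fin m)} {k : Fin m} {K w w' P P' : ℕ}
    {A : F.Ω → Prop} (h : LbR R F I k K w P A) (hw : w ≤ w') (hw' : w' ≤ J) (hP : P' ≤ P) :
    LbR R F I k K w' P' A := by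
  obtain ⟨V, z, z', G, h⟩ := h
  have hd : ∀ ω ω', slam F w' ω = slam F w' ω' → slam F w ω = slam F w ω' := by
    intro ω ω' hs
    obtain ⟨a1, a2⟩ := Prod.ext_iff.1 hs
    obtain ⟨a3, a4⟩ := Prod.ext_iff.1 a2
    have b1 : F.l ω = F.l ω' := a1
    have b2 : F.Z ω = F.Z ω' := a3
    have b3 : F.T1 w' ω = F.T1 w' ω' := a4
    obtain ⟨v, hv⟩ : ∃ v, w' = w + v := ⟨w' - w, by omega⟩
    rw [hv] at b3
    have b5 : F.T1 w ω = F.T1 w ω' := by
      rw [T1_div F (w := w) (K := v) (by omega) ω, T1_div F (w := w) (K := v) (by omega) ω', b3]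
    exact Prod.ext b1 (Prod.ext b2 b5)
  obtain ⟨y', hy'⟩ := fac (f := slam F w') (Y := fun ω => z' (slam F w ω)) (B := fun _ => True)
    (fun ω ω' _ _ hs => congrArg z' (hd ω ω' hs))
  refine ⟨Option V, fun x => some (z x), y', fun o => match o with
    | none => 0
    | some v => G v, ?_, ?_, ?_, ?_⟩
  · intro v
    rcases v with _ | v
    · simp only
      rw [totalDegree_zero]
      exact Nat.zero_le _
    · exact h.deg v
  · intro v b b' h0 h1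
    rcases v with _ | v
    · simp only [map_zero]
    · exact h.dep v b b' h0 h1
  · intro ω hω
    rw [hy' ω trivial, h.cls ω hω]
  · intro ω hω b hb
    rw [hy' ω trivial]
    exact (h.pos ω hω b hb).trans (inv_mono hP)

/-- **No stable labels in the zooms.** -/
theorem zlbr {S : PCl m} (hpos : PosC S) {R Q Q' w₁ w₂ w' : ℝ} (hR : 0 ≤ R) (hw0 : 0 < w₁)
    (hw1 : w₁ < 1) (hw'0 : 0 ≤ w') (hw'1 : w' ≤ 1) (hw : w₁ + w' * (1 - w₁) < w₂) (hw2 : w₂ ≤ 1)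
    (hQ'0 : 0 ≤ Q') (hQ'1 : Q' ≤ 1) (hQ : Q < w₁ + Q' * (1 - w₁)) (ε : Fin n → Fin m)
    (I' : Finset (Fin n)) (i : Fin n) (K : ℕ)
    (habs : Bas S (fun J F A => ¬ LbR R F (I'.image ε) (ε i) (K + 1) ⌊w₂ * J⌋₊ ⌊Q * J⌋₊ A)) :
    ZBas S w₁ ε (fun J G B => ¬ LbR (2 * R + 3) G I' i K ⌊w' * J⌋₊ ⌊Q' * J⌋₊ B) := by
  classical
  obtain ⟨c, l, hc, hzoom⟩ := lbr_zoom m n K hR
  obtain ⟨τ₁, hτ₁, J₁, hb⟩ := habs
  obtain ⟨δ, hδ⟩ : ∃ δ, δ = τ₁ / 8 := ⟨_, rfl⟩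
  have hδ0 : 0 < δ := by rw [hδ]; linarith
  obtain ⟨J₂, hJ₂⟩ := cst (1 / c) hδ0
  obtain ⟨J₃, hJ₃⟩ := lin (1 : ℝ) (sub_pos.2 hw)
  obtain ⟨J₄, hJ₄⟩ := lin ((l : ℝ) + 3) (sub_pos.2 hQ)
  obtain ⟨J₅, hJ₅⟩ := lin ((l : ℝ) + 1) hw0
  refine ⟨δ / 3, by linarith, δ, hδ0, max J₁ (max J₂ (max J₃ (max J₄ J₅))), ?_⟩
  intro J hJ F A hS κ z z' hcls hl J' hJ' B hB hLb
  simp only [ge_iff_le, max_le_iff] at hJ
  obtain ⟨hJ1, hJ2, hJ3, hJ4, hJ5⟩ := hJ
  replace hJ2 := hJ₂ J hJ2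
  replace hJ3 := hJ₃ J hJ3
  replace hJ4 := hJ₄ J hJ4
  replace hJ5 := hJ₅ J hJ5
  have hA : 0 < Pe F.p A := hpos _ J F A hδ0 hS
  have hJr : (0 : ℝ) ≤ J := Nat.cast_nonneg J
  obtain ⟨W, hW⟩ : ∃ W, W = ⌊w₁ * (J : ℝ)⌋₊ := ⟨_, rfl⟩
  have hWr : (W : ℝ) ≤ w₁ * J := by rw [hW]; exact Nat.floor_le (by positivity)
  have hWr' : w₁ * (J : ℝ) < W + 1 := by rw [hW]; exact Nat.lt_floor_add_one _
  have hsum : (W : ℝ) + J' = J := by
    have : W + J' = J := by rw [hW]; exact hJ'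
    exact_mod_cast this
  have hJ'0 : (0 : ℝ) ≤ J' := Nat.cast_nonneg J'
  have hw1' : 0 ≤ 1 - w₁ := by linarith
  have hJ'1 : (1 - w₁) * J ≤ (J' : ℝ) := by
    have : (1 - w₁) * (J : ℝ) = J - w₁ * J := by ring
    linarith
  have hJ'2 : (J' : ℝ) ≤ (1 - w₁) * J + 1 := by
    have : (1 - w₁) * (J : ℝ) = J - w₁ * J := by ring
    linarith
  have f1 : (⌊w' * (J' : ℝ)⌋₊ : ℝ) ≤ w' * J' := Nat.floor_le (by positivity)
  have f4 : Q' * (J' : ℝ) < ⌊Q' * (J' : ℝ)⌋₊ + 1 := Nat.lt_floor_add_one _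
  have g1 : w' * (J' : ℝ) ≤ w' * (1 - w₁) * J + 1 := by
    have := mul_le_mul_of_nonneg_left hJ'2 hw'0
    have e2 : w' * ((1 - w₁) * (J : ℝ) + 1) = w' * (1 - w₁) * J + w' := by ring
    linarith
  have g4 : Q' * (1 - w₁) * J ≤ Q' * (J' : ℝ) := by
    have := mul_le_mul_of_nonneg_left hJ'1 hQ'0
    have e2 : Q' * ((1 - w₁) * (J : ℝ)) = Q' * (1 - w₁) * J := by ring
    linarith
  have hwJ' : ⌊w' * (J' : ℝ)⌋₊ ≤ J' := by
    refine Nat.floor_le_of_le ?_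
    have := mul_le_mul_of_nonneg_right hw'1 hJ'0
    linarith
  have hQJ' : ⌊Q' * (J' : ℝ)⌋₊ ≤ J' := by
    refine Nat.floor_le_of_le ?_
    have := mul_le_mul_of_nonneg_right hQ'1 hJ'0
    linarith
  have hwin : W + ⌊w' * (J' : ℝ)⌋₊ ≤ ⌊w₂ * (J : ℝ)⌋₊ := by
    refine Nat.le_floor ?_
    push_cast
    have e2 : (w₂ - (w₁ + w' * (1 - w₁))) * (J : ℝ) = w₂ * J - w₁ * J - w' * (1 - w₁) * J := by
      ring
    linarith
  have hw2le : ⌊w₂ * (J : ℝ)⌋₊ ≤ J := by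
    refine Nat.floor_le_of_le ?_
    have := mul_le_mul_of_nonneg_right hw2 hJr
    linarith
  have hlW : l ≤ W := by
    have : (l : ℝ) ≤ W := by linarith
    exact_mod_cast this
  -- the label
  have hl2 : ∀ ω ω', A ω → A ω' → ptr F J ω = ptr F J ω' →
      z' (slam F W ω) = z' (slam F W ω') := by
    intro ω ω' h1 h2 h3
    have a1 := hcls ω h1
    have a2 := hcls ω' h2
    rw [hW, ← a1, ← a2, h3]
  subst hW
  have hev := evt hA (by omega : J' ≤ J) (by linarith : 0 ≤ δ / 3) hB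
  have e3 : 3 * (δ / 3) * (J : ℝ) = δ * J := by ring
  rw [e3] at hev
  -- restricting to the event `A`
  have hLb1 : LbR (2 * R + 3) (zf (F.res A True hl) ⌊w₁ * (J : ℝ)⌋₊ J' hJ'.le
      (fun ω => z' (slam F ⌊w₁ * J⌋₊ ω)) ε) I' i K ⌊w' * (J' : ℝ)⌋₊ ⌊Q' * (J' : ℝ)⌋₊
      (fun ω => A ω ∧ B ω) := by
    obtain ⟨V, y, y', G, h⟩ := hLb
    exact ⟨V, y, y', G, h.deg, h.dep, fun ω hω => h.cls ω hω.2, fun ω hω => h.pos ω hω.2⟩
  obtain ⟨B', hB', hPB', hG⟩ := hzoom J (F.res A True hl) ⌊w₁ * (J : ℝ)⌋₊ J' hJ' κ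
    (fun ω => z' (slam F ⌊w₁ * J⌋₊ ω)) (fun ω => A ω ∧ B ω)
    (fun ω ω' h1 h2 h3 => hl2 ω ω' h1.1 h2.1 h3) (fun ω ω' _ _ h3 =>
      congrArg z' h3) ε I' i ⌊w' * (J' : ℝ)⌋₊ ⌊Q' * (J' : ℝ)⌋₊ hwJ' hQJ' hLb1 (by omega)
  have hG2 := lbr_part hl hG
  -- the size of the event
  have hsz : Real.exp (-(2 * δ * J)) * Pe F.p A ≤ Pe F.p (fun ω => A ω ∧ B' ω) := by
    have h1 : Pe (F.res A True hl).p (fun ω => A ω ∧ B ω) =
        Pe F.p (fun ω => A ω ∧ (A ω ∧ B ω)) / Pe F.p A := Pe_cond _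
    have h2 : Pe (F.res A True hl).p B' = Pe F.p (fun ω => A ω ∧ B' ω) / Pe F.p A := Pe_cond _
    have h3 : Pe F.p (fun ω => A ω ∧ (A ω ∧ B ω)) = Pe F.p (fun ω => A ω ∧ B ω) := by
      congr 1
      funext ω
      exact propext ⟨fun h => h.2, fun h => ⟨h.1, h⟩⟩
    have h4 : c * (Pe F.p (fun ω => A ω ∧ B ω) / Pe F.p A) ≤
        Pe F.p (fun ω => A ω ∧ B' ω) / Pe F.p A := by
      rw [← h2, ← h3, ← h1]
      exact hPB'
    rw [← mul_div_assoc, div_le_div_iff_of_pos_right hA] at h4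
    refine le_trans ?_ h4
    refine le_trans ?_ (mul_le_mul_of_nonneg_left hev hc.le)
    rw [div_le_iff₀ hc] at hJ2
    have e1 : Real.exp (-(2 * δ * J)) = Real.exp (-(δ * J)) * Real.exp (-(δ * J)) := by
      rw [← Real.exp_add]
      congr 1
      ring
    have e2 : c * (Real.exp (-(δ * J)) * Pe F.p A) = c * Real.exp (-(δ * J)) * Pe F.p A := by ring
    rw [e1, e2]
    refine mul_le_mul_of_nonneg_right (mul_le_mul_of_nonneg_right ?_ (Real.exp_pos _).le) hA.le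
    rw [Real.exp_neg, inv_le_comm₀ (Real.exp_pos _) hc, ← one_div, div_le_iff₀ hc]
    exact hJ2
  have hSB := S.res (by linarith : 0 ≤ 2 * δ) hS (fun ω (hω : A ω ∧ B' ω) => hω.1) hsz
  refine hb J hJ1 F _ (S.mono (by linarith) hSB) ?_
  refine hG2.mono hwin hw2le ?_
  refine Nat.floor_le_of_le ?_
  rw [Nat.cast_sub (by omega)]
  push_cast
  have e2 : (w₁ + Q' * (1 - w₁) - Q) * (J : ℝ) = w₁ * J + Q' * (1 - w₁) * J - Q * J := by ring
  linarith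

end Pool.TOP
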